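import Mathlib

namespace Pool.Agent.Results.MP_10c741_co.ElevenRegular

/-- `p` is a geometric drawing of `G` in the plane whose edges are coloured by `c`: the points are
distinct, no segment of an edge passes through a vertex other than its endpoints, and two different
edges of the same colour meet only at a shared endpoint. -/
structure IsDrawing {V : Type} (G : SimpleGraph V) {t : ℕ} (p : V → ℝ × ℝ) (c : Sym2 V → Fin t) :
    Prop where
  inj : Function.Injective p
  avoid : ∀ u v w, G.Adj u v → w ≠ u → w ≠ v → p w ∉ segment ℝ (p u) (p v)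
  cross : ∀ u v x y, G.Adj u v → G.Adj x y → s(u, v) ≠ s(x, y) → c s(u, v) = c s(x, y) →
    ∀ z, z ∈ segment ℝ (p u) (p v) → z ∈ segment ℝ (p x) (p y) →
      ∃ w, w ∈ s(u, v) ∧ w ∈ s(x, y) ∧ z = p w

/-- `G` has a geometric drawing whose edges split into `t` noncrossing classes. -/
def GeomThicknessLE {V : Type} (G : SimpleGraph V) (t : ℕ) : Prop :=
  ∃ (p : V → ℝ × ℝ) (c : Sym2 V → Fin t), IsDrawing G p c

/-- The geometric thickness of `G` is exactly `t`. -/
def HasGeomThickness {V : Type} (G : SimpleGraph V) (t : ℕ) : Prop :=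
  GeomThicknessLE G t ∧ ∀ s < t, ¬ GeomThicknessLE G s

/-- The set of all `k` for which there is a finite `k`-regular graph of geometric thickness
exactly `t`. -/
def regularDegrees (t : ℕ) : Set ℕ :=
  {k | ∃ (n : ℕ) (G : SimpleGraph (Fin n)),
    (∀ v, (G.neighborSet v).ncard = k) ∧ HasGeomThickness G t}

/-! ### Orientation tests -/

/-- Twice the signed area of the triangle `a b c`. -/
def det (a b c : ℝ × ℝ) : ℝ := (b.1 - a.1) * (c.2 - a.2) - (b.2 - a.2) * (c.1 - a.1)

lemma det_seg (a b x y : ℝ × ℝ) (s : ℝ) (z : ℝ × ℝ)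
    (hz : z = ((1 - s) * x.1 + s * y.1, (1 - s) * x.2 + s * y.2)) :
    det a b z = (1 - s) * det a b x + s * det a b y := by
  subst hz; simp only [det]; ring

lemma mem_seg {x y z : ℝ × ℝ} (h : z ∈ segment ℝ x y) :
    ∃ s : ℝ, 0 ≤ s ∧ s ≤ 1 ∧ z = ((1 - s) * x.1 + s * y.1, (1 - s) * x.2 + s * y.2) := by
  obtain ⟨a, b, ha, hb, hab, rfl⟩ := h
  refine ⟨b, hb, by linarith, ?_⟩
  ext <;> simp <;> left <;> linarith

lemma seg_mem {x y : ℝ × ℝ} (s : ℝ) (h0 : 0 ≤ s) (h1 : s ≤ 1) :
    (((1 - s) * x.1 + s * y.1, (1 - s) * x.2 + s * y.2) : ℝ × ℝ) ∈ segment ℝ x y := by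
  refine ⟨1 - s, s, by linarith, h0, by ring, ?_⟩
  ext <;> simp

lemma det_self_seg {a b z : ℝ × ℝ} (h : z ∈ segment ℝ a b) : det a b z = 0 := by
  obtain ⟨s, _, _, hz⟩ := mem_seg h
  rw [det_seg a b a b s z hz]
  simp only [det]; ring

/-- Segments on one side do not meet. -/
lemma sep_pos {a b c d z : ℝ × ℝ} (h1 : 0 < det a b c) (h2 : 0 < det a b d)
    (hz1 : z ∈ segment ℝ a b) (hz2 : z ∈ segment ℝ c d) : False := by
  have h0 := det_self_seg hz1
  obtain ⟨s, hs0, hs1, hz⟩ := mem_seg hz2
  rw [det_seg a b c d s z hz] at h0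
  rcases eq_or_lt_of_le hs0 with h | h
  · subst h; simp at h0; linarith
  · have := mul_pos h h2
    have := mul_nonneg (sub_nonneg.mpr hs1) h1.le
    linarith

lemma sep_neg {a b c d z : ℝ × ℝ} (h1 : det a b c < 0) (h2 : det a b d < 0)
    (hz1 : z ∈ segment ℝ a b) (hz2 : z ∈ segment ℝ c d) : False := by
  have h0 := det_self_seg hz1
  obtain ⟨s, hs0, hs1, hz⟩ := mem_seg hz2
  rw [det_seg a b c d s z hz] at h0
  rcases eq_or_lt_of_le hs0 with h | h
  · subst h; simp at h0; linarith
  · have := mul_pos h (neg_pos.mpr h2)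
    have := mul_nonneg (sub_nonneg.mpr hs1) (neg_pos.mpr h1).le
    linarith

/-- Two segments with a common endpoint in different directions meet only there. -/
lemma share {a b c z : ℝ × ℝ} (h : det a b c ≠ 0)
    (hz1 : z ∈ segment ℝ a b) (hz2 : z ∈ segment ℝ a c) : z = a := by
  have h0 := det_self_seg hz1
  obtain ⟨s, hs0, hs1, hz⟩ := mem_seg hz2
  rw [det_seg a b a c s z hz] at h0
  have h1 : det a b a = 0 := by simp only [det]; ring
  rw [h1, mul_zero, zero_add] at h0
  have hs : s = 0 := by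
    rcases mul_eq_zero.mp h0 with h' | h'
    · exact h'
    · exact absurd h' h
  subst hs
  rw [hz]; ext <;> simp

/-- Proper crossing. -/
lemma crossing {a b c d : ℝ × ℝ} (h1 : det a b c * det a b d < 0) (h2 : det c d a * det c d b < 0) :
    ∃ z, z ∈ segment ℝ a b ∧ z ∈ segment ℝ c d := by
  have hA : det c d a - det c d b ≠ 0 := by
    intro h
    have : det c d a = det c d b := by linarith
    rw [this] at h2
    nlinarith [mul_self_nonneg (det c d b)]
  have hB : det a b c - det a b d ≠ 0 := by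
    intro h
    have : det a b c = det a b d := by linarith
    rw [this] at h1
    nlinarith [mul_self_nonneg (det a b d)]
  set s := det c d a / (det c d a - det c d b) with hs
  set r := det a b c / (det a b c - det a b d) with hr
  have s01 : 0 ≤ s ∧ s ≤ 1 := by
    rcases mul_neg_iff.mp h2 with ⟨p, q⟩ | ⟨p, q⟩
    · have hpos : 0 < det c d a - det c d b := by linarith
      exact ⟨div_nonneg p.le hpos.le, by rw [hs, div_le_one hpos]; linarith⟩
    · have hneg : det c d a - det c d b < 0 := by linarith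
      refine ⟨div_nonneg_of_nonpos p.le hneg.le, ?_⟩
      rw [hs, div_le_one_of_neg hneg]; linarith
  have r01 : 0 ≤ r ∧ r ≤ 1 := by
    rcases mul_neg_iff.mp h1 with ⟨p, q⟩ | ⟨p, q⟩
    · have hpos : 0 < det a b c - det a b d := by linarith
      exact ⟨div_nonneg p.le hpos.le, by rw [hr, div_le_one hpos]; linarith⟩
    · have hneg : det a b c - det a b d < 0 := by linarith
      refine ⟨div_nonneg_of_nonpos p.le hneg.le, ?_⟩
      rw [hr, div_le_one_of_neg hneg]; linarith
  refine ⟨_, seg_mem s s01.1 s01.2, ?_⟩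
  have : (((1 - s) * a.1 + s * b.1, (1 - s) * a.2 + s * b.2) : ℝ × ℝ) =
      ((1 - r) * c.1 + r * d.1, (1 - r) * c.2 + r * d.2) := by
    have e1 : s * (det c d a - det c d b) = det c d a := by rw [hs]; field_simp
    have e2 : r * (det a b c - det a b d) = det a b c := by rw [hr]; field_simp
    have e3 : det c d a - det c d b = -(det a b c - det a b d) := by simp only [det]; ring
    ext
    · simp only
      apply mul_left_cancel₀ hB
      have f1 : (det a b c - det a b d) * ((1 - s) * a.1 + s * b.1) =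
          (det a b c - det a b d) * a.1 - (s * (det c d a - det c d b)) * (b.1 - a.1) := by
        rw [e3]; ring
      have f2 : (det a b c - det a b d) * ((1 - r) * c.1 + r * d.1) =
          (det a b c - det a b d) * c.1 + (r * (det a b c - det a b d)) * (d.1 - c.1) := by ring
      rw [f1, f2, e1, e2]
      simp only [det]; ring
    · simp only
      apply mul_left_cancel₀ hB
      have f1 : (det a b c - det a b d) * ((1 - s) * a.2 + s * b.2) =
          (det a b c - det a b d) * a.2 - (s * (det c d a - det c d b)) * (b.2 - a.2) := by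
        rw [e3]; ring
      have f2 : (det a b c - det a b d) * ((1 - r) * c.2 + r * d.2) =
          (det a b c - det a b d) * c.2 + (r * (det a b c - det a b d)) * (d.2 - c.2) := by ring
      rw [f1, f2, e1, e2]
      simp only [det]; ring
  rw [this]
  exact seg_mem r r01.1 r01.2

/-! ### Five mutually adjacent vertices cannot be drawn in one class -/

lemma collinear_cases {a b c : ℝ × ℝ} (hab : a ≠ b) (h : det a b c = 0) :
    c ∈ segment ℝ a b ∨ a ∈ segment ℝ b c ∨ b ∈ segment ℝ a c := by
  obtain ⟨l, h1, h2⟩ : ∃ l : ℝ, c.1 = (1 - l) * a.1 + l * b.1 ∧ c.2 = (1 - l) * a.2 + l * b.2 := by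
    by_cases hx : b.1 = a.1
    · have hy : b.2 - a.2 ≠ 0 := by
        intro hy
        apply hab; ext
        · exact hx.symm
        · linarith
      refine ⟨(c.2 - a.2) / (b.2 - a.2), ?_, ?_⟩
      · simp only [det, hx] at h
        have h3 : (b.2 - a.2) * (c.1 - a.1) = 0 := by linarith
        rcases mul_eq_zero.mp h3 with h4 | h4
        · exact absurd h4 hy
        · rw [hx]; linarith
      · field_simp; ring
    · have hx' : b.1 - a.1 ≠ 0 := sub_ne_zero.mpr hx
      refine ⟨(c.1 - a.1) / (b.1 - a.1), ?_, ?_⟩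
      · field_simp; ring
      · simp only [det] at h
        field_simp
        linarith
  rcases lt_or_ge l 0 with hl | hl
  · right; left
    have h1l : 0 < 1 - l := by linarith
    have e : a = ((1 - 1 / (1 - l)) * b.1 + (1 / (1 - l)) * c.1,
        (1 - 1 / (1 - l)) * b.2 + (1 / (1 - l)) * c.2) := by
      have hne : (1 - l) ≠ 0 := h1l.ne'
      ext
      · simp only; rw [h1]; field_simp; ring
      · simp only; rw [h2]; field_simp; ring
    rw [e]
    exact seg_mem (x := b) (y := c) (1 / (1 - l)) (by positivity)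
      (by rw [div_le_one h1l]; linarith)
  · rcases le_or_gt l 1 with hl1 | hl1
    · left
      have e : c = ((1 - l) * a.1 + l * b.1, (1 - l) * a.2 + l * b.2) := by ext <;> simp [h1, h2]
      rw [e]
      exact seg_mem l hl hl1
    · right; right
      have hl0 : 0 < l := by linarith
      have e : b = ((1 - 1 / l) * a.1 + (1 / l) * c.1, (1 - 1 / l) * a.2 + (1 / l) * c.2) := by
        have hne : l ≠ 0 := hl0.ne'
        ext
        · simp only; rw [h1]; field_simp; ring
        · simp only; rw [h2]; field_simp; ring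
      rw [e]
      exact seg_mem (x := a) (y := c) (1 / l) (by positivity) (by rw [div_le_one hl0]; linarith)

/-- sign bit -/
noncomputable def sg (x : ℝ) : Bool := decide (0 < x)

lemma sg_mul_neg {x y : ℝ} (hx : x ≠ 0) (hy : y ≠ 0) (h : sg x ≠ sg y) : x * y < 0 := by
  unfold sg at h
  rcases lt_or_gt_of_ne hx with h1 | h1 <;> rcases lt_or_gt_of_ne hy with h2 | h2
  · exact absurd (by simp [not_lt.mpr h1.le, not_lt.mpr h2.le]) h
  · exact mul_neg_of_neg_of_pos h1 h2
  · exact mul_neg_of_pos_of_neg h1 h2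
  · exact absurd (by simp [h1, h2]) h

lemma sg_mul_pos {x y : ℝ} (hx : x ≠ 0) (hy : y ≠ 0) (h : sg x = sg y) : 0 < x * y := by
  unfold sg at h
  rcases lt_or_gt_of_ne hx with h1 | h1 <;> rcases lt_or_gt_of_ne hy with h2 | h2
  · exact mul_pos_of_neg_of_neg h1 h2
  · simp [not_lt.mpr h1.le, h2] at h
  · simp [h1, not_lt.mpr h2.le] at h
  · exact mul_pos h1 h2

lemma gp_sign {a b c d e f : ℝ} (ha : a ≠ 0) (hb : b ≠ 0) (hc : c ≠ 0) (hd : d ≠ 0) (he : e ≠ 0)
    (hf : f ≠ 0) (h : a * b - c * d + e * f = 0) :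
    ¬ ((sg a = sg b) ∧ (sg c ≠ sg d) ∧ (sg e = sg f)) ∧
    ¬ ((sg a ≠ sg b) ∧ (sg c = sg d) ∧ (sg e ≠ sg f)) := by
  constructor
  · rintro ⟨h1, h2, h3⟩
    have := sg_mul_pos ha hb h1
    have := sg_mul_neg hc hd h2
    have := sg_mul_pos he hf h3
    linarith
  · rintro ⟨h1, h2, h3⟩
    have := sg_mul_neg ha hb h1
    have := sg_mul_pos hc hd h2
    have := sg_mul_neg he hf h3
    linarith

def ct1 (a b c d : Bool) : Bool := !((xor a b) && (xor c d))
def ct2 (a b c d : Bool) : Bool := !((a == b) && (c == d))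
def ct3 (a b c d e f : Bool) : Bool := !((a == b) && (xor c d) && (e == f)) &&
  !((xor a b) && (c == d) && (xor e f))
lemma ct1_of {a b c d : Bool} (h : ¬ (a ≠ b ∧ c ≠ d)) : ct1 a b c d = true := by
  revert a b c d; decide
lemma ct2_of {a b c d : Bool} (h : ¬ (a = b ∧ c = d)) : ct2 a b c d = true := by
  revert a b c d; decide
lemma ct3_of {a b c d e f : Bool} (h : ¬ ((a = b) ∧ (c ≠ d) ∧ (e = f)) ∧
    ¬ ((a ≠ b) ∧ (c = d) ∧ (e ≠ f))) : ct3 a b c d e f = true := by
  revert a b c d e f; decide
lemma bool_fact : ∀ s012 s013 s014 s023 s024 s034 s123 s124 s134 s234 : Bool,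
    (ct1 s012 s013 s023 s123 &&
    ct2 s012 s023 s013 s123 &&
    ct1 s013 s023 s012 s123 &&
    ct1 s012 s014 s024 s124 &&
    ct2 s012 s024 s014 s124 &&
    ct1 s014 s024 s012 s124 &&
    ct1 s013 s014 s034 s134 &&
    ct2 s013 s034 s014 s134 &&
    ct1 s014 s034 s013 s134 &&
    ct1 s023 s024 s034 s234 &&
    ct2 s023 s034 s024 s234 &&
    ct1 s024 s034 s023 s234 &&
    ct1 s123 s124 s134 s234 &&
    ct2 s123 s134 s124 s234 &&
    ct1 s124 s134 s123 s234 &&
    ct3 s012 s034 s013 s024 s014 s023 &&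
    ct3 s012 s134 s013 s124 s014 s123 &&
    ct3 s012 s234 s023 s124 s024 s123 &&
    ct3 s013 s234 s023 s134 s034 s123 &&
    ct3 s014 s234 s024 s134 s034 s124) = false := by decide +kernel

lemma five_points (q : Fin 5 → ℝ × ℝ)
    (hne : ∀ i j k : Fin 5, i ≠ j → i ≠ k → j ≠ k → det (q i) (q j) (q k) ≠ 0)
    (hnc : ∀ i j k l : Fin 5, i ≠ j → i ≠ k → i ≠ l → j ≠ k → j ≠ l → k ≠ l →
      ¬ (det (q i) (q j) (q k) * det (q i) (q j) (q l) < 0 ∧
        det (q k) (q l) (q i) * det (q k) (q l) (q j) < 0)) : False := by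
  have n012 : det (q 0) (q 1) (q 2) ≠ 0 := hne 0 1 2 (by decide) (by decide) (by decide)
  have n013 : det (q 0) (q 1) (q 3) ≠ 0 := hne 0 1 3 (by decide) (by decide) (by decide)
  have n014 : det (q 0) (q 1) (q 4) ≠ 0 := hne 0 1 4 (by decide) (by decide) (by decide)
  have n023 : det (q 0) (q 2) (q 3) ≠ 0 := hne 0 2 3 (by decide) (by decide) (by decide)
  have n024 : det (q 0) (q 2) (q 4) ≠ 0 := hne 0 2 4 (by decide) (by decide) (by decide)
  have n034 : det (q 0) (q 3) (q 4) ≠ 0 := hne 0 3 4 (by decide) (by decide) (by decide)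
  have n123 : det (q 1) (q 2) (q 3) ≠ 0 := hne 1 2 3 (by decide) (by decide) (by decide)
  have n124 : det (q 1) (q 2) (q 4) ≠ 0 := hne 1 2 4 (by decide) (by decide) (by decide)
  have n134 : det (q 1) (q 3) (q 4) ≠ 0 := hne 1 3 4 (by decide) (by decide) (by decide)
  have n234 : det (q 2) (q 3) (q 4) ≠ 0 := hne 2 3 4 (by decide) (by decide) (by decide)
  have c0 : ¬ (sg (det (q 0) (q 1) (q 2)) ≠ sg (det (q 0) (q 1) (q 3)) ∧ sg (det (q 0) (q 2) (q 3)) ≠ sg (det (q 1) (q 2) (q 3))) := by
    rintro ⟨h1, h2⟩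
    apply hnc 0 1 2 3 (by decide) (by decide) (by decide) (by decide) (by decide) (by decide)
    have g1 := sg_mul_neg n012 n013 h1
    have g2 := sg_mul_neg n023 n123 h2
    refine ⟨g1, ?_⟩
    have e : det (q 2) (q 3) (q 0) * det (q 2) (q 3) (q 1) = det (q 0) (q 2) (q 3) * det (q 1) (q 2) (q 3) := by simp only [det]; ring
    rw [e]; exact g2
  have c1 : ¬ (sg (det (q 0) (q 1) (q 2)) = sg (det (q 0) (q 2) (q 3)) ∧ sg (det (q 0) (q 1) (q 3)) = sg (det (q 1) (q 2) (q 3))) := by
    rintro ⟨h1, h2⟩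
    apply hnc 0 2 1 3 (by decide) (by decide) (by decide) (by decide) (by decide) (by decide)
    have g1 := sg_mul_pos n012 n023 h1
    have g2 := sg_mul_pos n013 n123 h2
    have e1 : det (q 0) (q 2) (q 1) * det (q 0) (q 2) (q 3) = -(det (q 0) (q 1) (q 2) * det (q 0) (q 2) (q 3)) := by simp only [det]; ring
    have e2 : det (q 1) (q 3) (q 0) * det (q 1) (q 3) (q 2) = -(det (q 0) (q 1) (q 3) * det (q 1) (q 2) (q 3)) := by simp only [det]; ring
    rw [e1, e2]; exact ⟨by linarith, by linarith⟩
  have c2 : ¬ (sg (det (q 0) (q 1) (q 3)) ≠ sg (det (q 0) (q 2) (q 3)) ∧ sg (det (q 0) (q 1) (q 2)) ≠ sg (det (q 1) (q 2) (q 3))) := by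
    rintro ⟨h1, h2⟩
    apply hnc 0 3 1 2 (by decide) (by decide) (by decide) (by decide) (by decide) (by decide)
    have g1 := sg_mul_neg n013 n023 h1
    have g2 := sg_mul_neg n012 n123 h2
    have e1 : det (q 0) (q 3) (q 1) * det (q 0) (q 3) (q 2) = (det (q 0) (q 1) (q 3) * det (q 0) (q 2) (q 3)) := by simp only [det]; ring
    have e2 : det (q 1) (q 2) (q 0) * det (q 1) (q 2) (q 3) = (det (q 0) (q 1) (q 2) * det (q 1) (q 2) (q 3)) := by simp only [det]; ring
    rw [e1, e2]; exact ⟨g1, g2⟩
  have c3 : ¬ (sg (det (q 0) (q 1) (q 2)) ≠ sg (det (q 0) (q 1) (q 4)) ∧ sg (det (q 0) (q 2) (q 4)) ≠ sg (det (q 1) (q 2) (q 4))) := by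
    rintro ⟨h1, h2⟩
    apply hnc 0 1 2 4 (by decide) (by decide) (by decide) (by decide) (by decide) (by decide)
    have g1 := sg_mul_neg n012 n014 h1
    have g2 := sg_mul_neg n024 n124 h2
    refine ⟨g1, ?_⟩
    have e : det (q 2) (q 4) (q 0) * det (q 2) (q 4) (q 1) = det (q 0) (q 2) (q 4) * det (q 1) (q 2) (q 4) := by simp only [det]; ring
    rw [e]; exact g2
  have c4 : ¬ (sg (det (q 0) (q 1) (q 2)) = sg (det (q 0) (q 2) (q 4)) ∧ sg (det (q 0) (q 1) (q 4)) = sg (det (q 1) (q 2) (q 4))) := by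
    rintro ⟨h1, h2⟩
    apply hnc 0 2 1 4 (by decide) (by decide) (by decide) (by decide) (by decide) (by decide)
    have g1 := sg_mul_pos n012 n024 h1
    have g2 := sg_mul_pos n014 n124 h2
    have e1 : det (q 0) (q 2) (q 1) * det (q 0) (q 2) (q 4) = -(det (q 0) (q 1) (q 2) * det (q 0) (q 2) (q 4)) := by simp only [det]; ring
    have e2 : det (q 1) (q 4) (q 0) * det (q 1) (q 4) (q 2) = -(det (q 0) (q 1) (q 4) * det (q 1) (q 2) (q 4)) := by simp only [det]; ring
    rw [e1, e2]; exact ⟨by linarith, by linarith⟩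
  have c5 : ¬ (sg (det (q 0) (q 1) (q 4)) ≠ sg (det (q 0) (q 2) (q 4)) ∧ sg (det (q 0) (q 1) (q 2)) ≠ sg (det (q 1) (q 2) (q 4))) := by
    rintro ⟨h1, h2⟩
    apply hnc 0 4 1 2 (by decide) (by decide) (by decide) (by decide) (by decide) (by decide)
    have g1 := sg_mul_neg n014 n024 h1
    have g2 := sg_mul_neg n012 n124 h2
    have e1 : det (q 0) (q 4) (q 1) * det (q 0) (q 4) (q 2) = (det (q 0) (q 1) (q 4) * det (q 0) (q 2) (q 4)) := by simp only [det]; ring
    have e2 : det (q 1) (q 2) (q 0) * det (q 1) (q 2) (q 4) = (det (q 0) (q 1) (q 2) * det (q 1) (q 2) (q 4)) := by simp only [det]; ring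
    rw [e1, e2]; exact ⟨g1, g2⟩
  have c6 : ¬ (sg (det (q 0) (q 1) (q 3)) ≠ sg (det (q 0) (q 1) (q 4)) ∧ sg (det (q 0) (q 3) (q 4)) ≠ sg (det (q 1) (q 3) (q 4))) := by
    rintro ⟨h1, h2⟩
    apply hnc 0 1 3 4 (by decide) (by decide) (by decide) (by decide) (by decide) (by decide)
    have g1 := sg_mul_neg n013 n014 h1
    have g2 := sg_mul_neg n034 n134 h2
    refine ⟨g1, ?_⟩
    have e : det (q 3) (q 4) (q 0) * det (q 3) (q 4) (q 1) = det (q 0) (q 3) (q 4) * det (q 1) (q 3) (q 4) := by simp only [det]; ring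
    rw [e]; exact g2
  have c7 : ¬ (sg (det (q 0) (q 1) (q 3)) = sg (det (q 0) (q 3) (q 4)) ∧ sg (det (q 0) (q 1) (q 4)) = sg (det (q 1) (q 3) (q 4))) := by
    rintro ⟨h1, h2⟩
    apply hnc 0 3 1 4 (by decide) (by decide) (by decide) (by decide) (by decide) (by decide)
    have g1 := sg_mul_pos n013 n034 h1
    have g2 := sg_mul_pos n014 n134 h2
    have e1 : det (q 0) (q 3) (q 1) * det (q 0) (q 3) (q 4) = -(det (q 0) (q 1) (q 3) * det (q 0) (q 3) (q 4)) := by simp only [det]; ring
    have e2 : det (q 1) (q 4) (q 0) * det (q 1) (q 4) (q 3) = -(det (q 0) (q 1) (q 4) * det (q 1) (q 3) (q 4)) := by simp only [det]; ring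
    rw [e1, e2]; exact ⟨by linarith, by linarith⟩
  have c8 : ¬ (sg (det (q 0) (q 1) (q 4)) ≠ sg (det (q 0) (q 3) (q 4)) ∧ sg (det (q 0) (q 1) (q 3)) ≠ sg (det (q 1) (q 3) (q 4))) := by
    rintro ⟨h1, h2⟩
    apply hnc 0 4 1 3 (by decide) (by decide) (by decide) (by decide) (by decide) (by decide)
    have g1 := sg_mul_neg n014 n034 h1
    have g2 := sg_mul_neg n013 n134 h2
    have e1 : det (q 0) (q 4) (q 1) * det (q 0) (q 4) (q 3) = (det (q 0) (q 1) (q 4) * det (q 0) (q 3) (q 4)) := by simp only [det]; ring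
    have e2 : det (q 1) (q 3) (q 0) * det (q 1) (q 3) (q 4) = (det (q 0) (q 1) (q 3) * det (q 1) (q 3) (q 4)) := by simp only [det]; ring
    rw [e1, e2]; exact ⟨g1, g2⟩
  have c9 : ¬ (sg (det (q 0) (q 2) (q 3)) ≠ sg (det (q 0) (q 2) (q 4)) ∧ sg (det (q 0) (q 3) (q 4)) ≠ sg (det (q 2) (q 3) (q 4))) := by
    rintro ⟨h1, h2⟩
    apply hnc 0 2 3 4 (by decide) (by decide) (by decide) (by decide) (by decide) (by decide)
    have g1 := sg_mul_neg n023 n024 h1
    have g2 := sg_mul_neg n034 n234 h2
    refine ⟨g1, ?_⟩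
    have e : det (q 3) (q 4) (q 0) * det (q 3) (q 4) (q 2) = det (q 0) (q 3) (q 4) * det (q 2) (q 3) (q 4) := by simp only [det]; ring
    rw [e]; exact g2
  have c10 : ¬ (sg (det (q 0) (q 2) (q 3)) = sg (det (q 0) (q 3) (q 4)) ∧ sg (det (q 0) (q 2) (q 4)) = sg (det (q 2) (q 3) (q 4))) := by
    rintro ⟨h1, h2⟩
    apply hnc 0 3 2 4 (by decide) (by decide) (by decide) (by decide) (by decide) (by decide)
    have g1 := sg_mul_pos n023 n034 h1
    have g2 := sg_mul_pos n024 n234 h2
    have e1 : det (q 0) (q 3) (q 2) * det (q 0) (q 3) (q 4) = -(det (q 0) (q 2) (q 3) * det (q 0) (q 3) (q 4)) := by simp only [det]; ring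
    have e2 : det (q 2) (q 4) (q 0) * det (q 2) (q 4) (q 3) = -(det (q 0) (q 2) (q 4) * det (q 2) (q 3) (q 4)) := by simp only [det]; ring
    rw [e1, e2]; exact ⟨by linarith, by linarith⟩
  have c11 : ¬ (sg (det (q 0) (q 2) (q 4)) ≠ sg (det (q 0) (q 3) (q 4)) ∧ sg (det (q 0) (q 2) (q 3)) ≠ sg (det (q 2) (q 3) (q 4))) := by
    rintro ⟨h1, h2⟩
    apply hnc 0 4 2 3 (by decide) (by decide) (by decide) (by decide) (by decide) (by decide)
    have g1 := sg_mul_neg n024 n034 h1
    have g2 := sg_mul_neg n023 n234 h2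
    have e1 : det (q 0) (q 4) (q 2) * det (q 0) (q 4) (q 3) = (det (q 0) (q 2) (q 4) * det (q 0) (q 3) (q 4)) := by simp only [det]; ring
    have e2 : det (q 2) (q 3) (q 0) * det (q 2) (q 3) (q 4) = (det (q 0) (q 2) (q 3) * det (q 2) (q 3) (q 4)) := by simp only [det]; ring
    rw [e1, e2]; exact ⟨g1, g2⟩
  have c12 : ¬ (sg (det (q 1) (q 2) (q 3)) ≠ sg (det (q 1) (q 2) (q 4)) ∧ sg (det (q 1) (q 3) (q 4)) ≠ sg (det (q 2) (q 3) (q 4))) := by
    rintro ⟨h1, h2⟩
    apply hnc 1 2 3 4 (by decide) (by decide) (by decide) (by decide) (by decide) (by decide)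
    have g1 := sg_mul_neg n123 n124 h1
    have g2 := sg_mul_neg n134 n234 h2
    refine ⟨g1, ?_⟩
    have e : det (q 3) (q 4) (q 1) * det (q 3) (q 4) (q 2) = det (q 1) (q 3) (q 4) * det (q 2) (q 3) (q 4) := by simp only [det]; ring
    rw [e]; exact g2
  have c13 : ¬ (sg (det (q 1) (q 2) (q 3)) = sg (det (q 1) (q 3) (q 4)) ∧ sg (det (q 1) (q 2) (q 4)) = sg (det (q 2) (q 3) (q 4))) := by
    rintro ⟨h1, h2⟩
    apply hnc 1 3 2 4 (by decide) (by decide) (by decide) (by decide) (by decide) (by decide)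
    have g1 := sg_mul_pos n123 n134 h1
    have g2 := sg_mul_pos n124 n234 h2
    have e1 : det (q 1) (q 3) (q 2) * det (q 1) (q 3) (q 4) = -(det (q 1) (q 2) (q 3) * det (q 1) (q 3) (q 4)) := by simp only [det]; ring
    have e2 : det (q 2) (q 4) (q 1) * det (q 2) (q 4) (q 3) = -(det (q 1) (q 2) (q 4) * det (q 2) (q 3) (q 4)) := by simp only [det]; ring
    rw [e1, e2]; exact ⟨by linarith, by linarith⟩
  have c14 : ¬ (sg (det (q 1) (q 2) (q 4)) ≠ sg (det (q 1) (q 3) (q 4)) ∧ sg (det (q 1) (q 2) (q 3)) ≠ sg (det (q 2) (q 3) (q 4))) := by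
    rintro ⟨h1, h2⟩
    apply hnc 1 4 2 3 (by decide) (by decide) (by decide) (by decide) (by decide) (by decide)
    have g1 := sg_mul_neg n124 n134 h1
    have g2 := sg_mul_neg n123 n234 h2
    have e1 : det (q 1) (q 4) (q 2) * det (q 1) (q 4) (q 3) = (det (q 1) (q 2) (q 4) * det (q 1) (q 3) (q 4)) := by simp only [det]; ring
    have e2 : det (q 2) (q 3) (q 1) * det (q 2) (q 3) (q 4) = (det (q 1) (q 2) (q 3) * det (q 2) (q 3) (q 4)) := by simp only [det]; ring
    rw [e1, e2]; exact ⟨g1, g2⟩
  have p0 := gp_sign n012 n034 n013 n024 n014 n023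
    (show (det (q 0) (q 1) (q 2)) * (det (q 0) (q 3) (q 4)) - (det (q 0) (q 1) (q 3)) * (det (q 0) (q 2) (q 4)) + (det (q 0) (q 1) (q 4)) * (det (q 0) (q 2) (q 3)) = 0 by simp only [det]; ring)
  have p1 := gp_sign n012 n134 n013 n124 n014 n123
    (show (det (q 0) (q 1) (q 2)) * (det (q 1) (q 3) (q 4)) - (det (q 0) (q 1) (q 3)) * (det (q 1) (q 2) (q 4)) + (det (q 0) (q 1) (q 4)) * (det (q 1) (q 2) (q 3)) = 0 by simp only [det]; ring)
  have p2 := gp_sign n012 n234 n023 n124 n024 n123
    (show (det (q 0) (q 1) (q 2)) * (det (q 2) (q 3) (q 4)) - (det (q 0) (q 2) (q 3)) * (det (q 1) (q 2) (q 4)) + (det (q 0) (q 2) (q 4)) * (det (q 1) (q 2) (q 3)) = 0 by simp only [det]; ring)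
  have p3 := gp_sign n013 n234 n023 n134 n034 n123
    (show (det (q 0) (q 1) (q 3)) * (det (q 2) (q 3) (q 4)) - (det (q 0) (q 2) (q 3)) * (det (q 1) (q 3) (q 4)) + (det (q 0) (q 3) (q 4)) * (det (q 1) (q 2) (q 3)) = 0 by simp only [det]; ring)
  have p4 := gp_sign n014 n234 n024 n134 n034 n124
    (show (det (q 0) (q 1) (q 4)) * (det (q 2) (q 3) (q 4)) - (det (q 0) (q 2) (q 4)) * (det (q 1) (q 3) (q 4)) + (det (q 0) (q 3) (q 4)) * (det (q 1) (q 2) (q 4)) = 0 by simp only [det]; ring)
  replace c0 := ct1_of c0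
  replace c1 := ct2_of c1
  replace c2 := ct1_of c2
  replace c3 := ct1_of c3
  replace c4 := ct2_of c4
  replace c5 := ct1_of c5
  replace c6 := ct1_of c6
  replace c7 := ct2_of c7
  replace c8 := ct1_of c8
  replace c9 := ct1_of c9
  replace c10 := ct2_of c10
  replace c11 := ct1_of c11
  replace c12 := ct1_of c12
  replace c13 := ct2_of c13
  replace c14 := ct1_of c14
  replace p0 := ct3_of p0
  replace p1 := ct3_of p1
  replace p2 := ct3_of p2
  replace p3 := ct3_of p3
  replace p4 := ct3_of p4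
  have key := bool_fact (sg (det (q 0) (q 1) (q 2))) (sg (det (q 0) (q 1) (q 3))) (sg (det (q 0) (q 1) (q 4))) (sg (det (q 0) (q 2) (q 3))) (sg (det (q 0) (q 2) (q 4))) (sg (det (q 0) (q 3) (q 4))) (sg (det (q 1) (q 2) (q 3))) (sg (det (q 1) (q 2) (q 4))) (sg (det (q 1) (q 3) (q 4))) (sg (det (q 2) (q 3) (q 4)))
  simp only [c0, c1, c2, c3, c4, c5, c6, c7, c8, c9, c10, c11, c12, c13, c14, p0, p1, p2, p3, p4, Bool.and_self] at key
  exact Bool.noConfusion key

lemma no_k5 {V : Type} (G : SimpleGraph V) (f : Fin 5 → V) (hf : Function.Injective f)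
    (hadj : ∀ i j, i ≠ j → G.Adj (f i) (f j)) : ¬ GeomThicknessLE G 1 := by
  rintro ⟨p, c, hD⟩
  apply five_points (fun i => p (f i))
  · intro i j k hij hik hjk h
    rcases collinear_cases (fun h => hij (hf (hD.inj h))) h with h | h | h
    · exact hD.avoid _ _ _ (hadj i j hij) (fun h => hik (hf h).symm) (fun h => hjk (hf h).symm) h
    · exact hD.avoid _ _ _ (hadj j k hjk) (fun h => hij (hf h)) (fun h => hik (hf h)) h
    · exact hD.avoid _ _ _ (hadj i k hik) (fun h => hij (hf h).symm) (fun h => hjk (hf h)) h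
  · intro i j k l hij hik hil hjk hjl hkl h
    obtain ⟨z, hz1, hz2⟩ := crossing h.1 h.2
    have hne : s(f i, f j) ≠ s(f k, f l) := by
      intro h
      rcases Sym2.eq_iff.mp h with ⟨h1, _⟩ | ⟨h1, _⟩
      · exact hik (hf h1)
      · exact hil (hf h1)
    obtain ⟨w, hw1, hw2, _⟩ := hD.cross _ _ _ _ (hadj i j hij) (hadj k l hkl) hne
      (Subsingleton.elim _ _) z hz1 hz2
    rw [Sym2.mem_iff] at hw1 hw2
    rcases hw1 with rfl | rfl <;> rcases hw2 with h | h
    · exact hik (hf h)
    · exact hil (hf h)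
    · exact hjk (hf h)
    · exact hjl (hf h)

/-! ### The graph on 44 vertices -/

/-- Positions of the vertices. -/
def pts : List (ℕ × ℕ) := [(0,0), (2000,0), (1000,1500), (856,572), (552,587), (951,439), (1492,471), (1437,339),
  (1264,407), (176,62), (999,215), (12,12), (1636,222), (675,588), (477,311), (1104,497),
  (1990,9), (1912,28), (1719,144), (1107,893), (167,33), (749,661), (853,1186), (1206,613),
  (1150,556), (1027,351), (466,150), (661,133), (920,753), (596,454), (970,695), (616,659),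
  (814,635), (760,390), (977,531), (719,488), (990,1385), (1468,230), (1499,482), (154,42),
  (1459,437), (843,1084), (1651,316), (966,273)]

/-- Row `u` of the colour matrix, written in base 4. -/
def tab : List ℕ := [5142661711549762361360424, 80280253871399479803938,
  10285314776194863002025994, 21714132624966288932864,
  604564655170778143391744, 77392060393347462886064128,
  26785262691470221261307904, 176541243779532794133291008,
  157179541166553273443835904, 604509612136550472089985,
  77410285802950951000114176, 604467557524509445849378,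
  19531707809179990382174208, 9691569568774334409868608,
  2472174455368061550720, 175294557450592432416639040,
  19418370978685984130007082, 38695070979774317604110372,
  38865076155145317735530496, 24266472918152557600182272,
  302231495436191689605381, 10889801465245661793354016,
  5520456218307679290917413, 25548594193677737665761280,
  1360632998195258630219776, 154761394377167055239644164,
  155347115412447939063711876, 155346967824985665092747268,
  4847552429301828295852032, 9671526604903885360857376,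
  1212029556719416367906944, 5440167989745264657695233,
  1211287723436404101349696, 1773490511661073697152,
  19039346431315742378048, 77371365585759457088898176,
  151115871734864044621861, 295149031148082013248,
  19352257847521502358937604, 154742514179116851383501345,
  174085337624528422315401216, 5260301396804112417,
  1284483683411364304408576, 3023495187945088584156160]

def colr (u v : ℕ) : ℕ := (tab.getD u 0 / 4 ^ v) % 4

def P (i : Fin 44) : ℕ × ℕ := pts.getD i (0, 0)

/-- An edge with its endpoints and their positions. -/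
abbrev Ed : Type := (ℕ × ℕ) × ((ℕ × ℕ) × (ℕ × ℕ))

def E1 : List Ed := [((0,9),((0,0),(176,62))), ((0,20),((0,0),(167,33))), ((0,22),((0,0),(853,1186))),
  ((0,31),((0,0),(616,659))), ((0,36),((0,0),(990,1385))), ((0,39),((0,0),(154,42))),
  ((0,41),((0,0),(843,1084))), ((1,17),((2000,0),(1912,28))), ((1,20),((2000,0),(167,33))),
  ((1,22),((2000,0),(853,1186))), ((1,25),((2000,0),(1027,351))), ((1,26),((2000,0),(466,150))),
  ((1,27),((2000,0),(661,133))), ((1,36),((2000,0),(990,1385))), ((1,38),((2000,0),(1499,482))),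
  ((3,13),((856,572),(675,588))), ((3,15),((856,572),(1104,497))), ((3,32),((856,572),(814,635))),
  ((3,34),((856,572),(977,531))), ((3,37),((856,572),(1468,230))), ((4,9),((552,587),(176,62))),
  ((4,11),((552,587),(12,12))), ((4,13),((552,587),(675,588))), ((4,20),((552,587),(167,33))),
  ((4,21),((552,587),(749,661))), ((4,29),((552,587),(596,454))), ((4,32),((552,587),(814,635))),
  ((4,33),((552,587),(760,390))), ((5,10),((951,439),(999,215))), ((5,13),((951,439),(675,588))),
  ((5,25),((951,439),(1027,351))), ((5,35),((951,439),(719,488))), ((5,37),((951,439),(1468,230))),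
  ((5,43),((951,439),(966,273))), ((6,19),((1492,471),(1107,893))), ((6,23),((1492,471),(1206,613))),
  ((6,41),((1492,471),(843,1084))), ((6,42),((1492,471),(1651,316))), ((7,8),((1437,339),(1264,407))),
  ((7,12),((1437,339),(1636,222))), ((7,15),((1437,339),(1104,497))), ((7,34),((1437,339),(977,531))),
  ((7,42),((1437,339),(1651,316))), ((8,12),((1264,407),(1636,222))), ((8,16),((1264,407),(1990,9))),
  ((8,18),((1264,407),(1719,144))), ((8,34),((1264,407),(977,531))), ((8,37),((1264,407),(1468,230))),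
  ((9,11),((176,62),(12,12))), ((9,20),((176,62),(167,33))), ((10,14),((999,215),(477,311))),
  ((10,17),((999,215),(1912,28))), ((10,25),((999,215),(1027,351))), ((10,33),((999,215),(760,390))),
  ((10,35),((999,215),(719,488))), ((10,43),((999,215),(966,273))), ((11,31),((12,12),(616,659))),
  ((12,16),((1636,222),(1990,9))), ((12,42),((1636,222),(1651,316))), ((13,32),((675,588),(814,635))),
  ((13,33),((675,588),(760,390))), ((13,35),((675,588),(719,488))), ((13,37),((675,588),(1468,230))),
  ((14,17),((477,311),(1912,28))), ((14,20),((477,311),(167,33))), ((14,26),((477,311),(466,150))),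
  ((14,27),((477,311),(661,133))), ((14,29),((477,311),(596,454))), ((14,33),((477,311),(760,390))),
  ((15,32),((1104,497),(814,635))), ((15,34),((1104,497),(977,531))), ((15,40),((1104,497),(1459,437))),
  ((15,42),((1104,497),(1651,316))), ((16,18),((1990,9),(1719,144))), ((16,25),((1990,9),(1027,351))),
  ((16,38),((1990,9),(1499,482))), ((16,42),((1990,9),(1651,316))), ((17,25),((1912,28),(1027,351))),
  ((17,27),((1912,28),(661,133))), ((18,25),((1719,144),(1027,351))), ((18,37),((1719,144),(1468,230))),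
  ((19,22),((1107,893),(853,1186))), ((19,38),((1107,893),(1499,482))), ((19,41),((1107,893),(843,1084))),
  ((19,42),((1107,893),(1651,316))), ((20,26),((167,33),(466,150))), ((20,39),((167,33),(154,42))),
  ((21,24),((749,661),(1150,556))), ((21,30),((749,661),(970,695))), ((21,31),((749,661),(616,659))),
  ((21,32),((749,661),(814,635))), ((21,40),((749,661),(1459,437))), ((22,36),((853,1186),(990,1385))),
  ((22,38),((853,1186),(1499,482))), ((22,41),((853,1186),(843,1084))), ((23,28),((1206,613),(920,753))),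
  ((23,30),((1206,613),(970,695))), ((23,40),((1206,613),(1459,437))), ((23,41),((1206,613),(843,1084))),
  ((23,42),((1206,613),(1651,316))), ((24,30),((1150,556),(970,695))), ((24,40),((1150,556),(1459,437))),
  ((25,37),((1027,351),(1468,230))), ((26,27),((466,150),(661,133))), ((28,30),((920,753),(970,695))),
  ((28,31),((920,753),(616,659))), ((28,41),((920,753),(843,1084))), ((29,33),((596,454),(760,390))),
  ((30,31),((970,695),(616,659))), ((30,40),((970,695),(1459,437))), ((31,41),((616,659),(843,1084))),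
  ((32,40),((814,635),(1459,437))), ((33,35),((760,390),(719,488))), ((34,37),((977,531),(1468,230))),
  ((35,43),((719,488),(966,273))), ((38,42),((1499,482),(1651,316))), ((40,42),((1459,437),(1651,316)))]

def E2 : List Ed := [((0,1),((0,0),(2000,0))), ((0,2),((0,0),(1000,1500))), ((0,11),((0,0),(12,12))),
  ((0,16),((0,0),(1990,9))), ((1,2),((2000,0),(1000,1500))), ((1,16),((2000,0),(1990,9))),
  ((2,11),((1000,1500),(12,12))), ((2,16),((1000,1500),(1990,9))), ((2,17),((1000,1500),(1912,28))),
  ((2,21),((1000,1500),(749,661))), ((2,22),((1000,1500),(853,1186))), ((2,29),((1000,1500),(596,454))),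
  ((2,36),((1000,1500),(990,1385))), ((2,39),((1000,1500),(154,42))), ((2,41),((1000,1500),(843,1084))),
  ((3,9),((856,572),(176,62))), ((3,14),((856,572),(477,311))), ((3,26),((856,572),(466,150))),
  ((3,30),((856,572),(970,695))), ((3,33),((856,572),(760,390))), ((3,35),((856,572),(719,488))),
  ((4,22),((552,587),(853,1186))), ((4,31),((552,587),(616,659))), ((4,39),((552,587),(154,42))),
  ((5,15),((951,439),(1104,497))), ((5,24),((951,439),(1150,556))), ((5,26),((951,439),(466,150))),
  ((5,33),((951,439),(760,390))), ((5,34),((951,439),(977,531))), ((6,7),((1492,471),(1437,339))),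
  ((6,8),((1492,471),(1264,407))), ((6,12),((1492,471),(1636,222))), ((6,24),((1492,471),(1150,556))),
  ((6,37),((1492,471),(1468,230))), ((6,38),((1492,471),(1499,482))), ((6,40),((1492,471),(1459,437))),
  ((7,10),((1437,339),(999,215))), ((7,27),((1437,339),(661,133))), ((7,37),((1437,339),(1468,230))),
  ((7,40),((1437,339),(1459,437))), ((7,43),((1437,339),(966,273))), ((8,24),((1264,407),(1150,556))),
  ((8,25),((1264,407),(1027,351))), ((8,40),((1264,407),(1459,437))), ((8,43),((1264,407),(966,273))),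
  ((9,14),((176,62),(477,311))), ((9,26),((176,62),(466,150))), ((9,29),((176,62),(596,454))),
  ((9,31),((176,62),(616,659))), ((9,32),((176,62),(814,635))), ((9,39),((176,62),(154,42))),
  ((10,12),((999,215),(1636,222))), ((10,27),((999,215),(661,133))), ((10,37),((999,215),(1468,230))),
  ((11,16),((12,12),(1990,9))), ((11,17),((12,12),(1912,28))), ((11,18),((12,12),(1719,144))),
  ((11,20),((12,12),(167,33))), ((11,27),((12,12),(661,133))), ((11,39),((12,12),(154,42))),
  ((12,18),((1636,222),(1719,144))), ((12,20),((1636,222),(167,33))), ((12,27),((1636,222),(661,133))),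
  ((12,37),((1636,222),(1468,230))), ((12,38),((1636,222),(1499,482))), ((13,21),((675,588),(749,661))),
  ((13,28),((675,588),(920,753))), ((13,29),((675,588),(596,454))), ((13,41),((675,588),(843,1084))),
  ((14,32),((477,311),(814,635))), ((14,35),((477,311),(719,488))), ((15,24),((1104,497),(1150,556))),
  ((15,25),((1104,497),(1027,351))), ((15,26),((1104,497),(466,150))), ((15,43),((1104,497),(966,273))),
  ((16,17),((1990,9),(1912,28))), ((17,18),((1912,28),(1719,144))), ((17,36),((1912,28),(990,1385))),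
  ((17,42),((1912,28),(1651,316))), ((18,20),((1719,144),(167,33))), ((18,36),((1719,144),(990,1385))),
  ((18,38),((1719,144),(1499,482))), ((18,42),((1719,144),(1651,316))), ((19,23),((1107,893),(1206,613))),
  ((19,28),((1107,893),(920,753))), ((19,30),((1107,893),(970,695))), ((19,34),((1107,893),(977,531))),
  ((19,35),((1107,893),(719,488))), ((19,36),((1107,893),(990,1385))), ((20,27),((167,33),(661,133))),
  ((21,28),((749,661),(920,753))), ((21,36),((749,661),(990,1385))), ((21,41),((749,661),(843,1084))),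
  ((22,29),((853,1186),(596,454))), ((22,31),((853,1186),(616,659))), ((22,39),((853,1186),(154,42))),
  ((23,24),((1206,613),(1150,556))), ((23,34),((1206,613),(977,531))), ((23,36),((1206,613),(990,1385))),
  ((23,38),((1206,613),(1499,482))), ((24,25),((1150,556),(1027,351))), ((24,34),((1150,556),(977,531))),
  ((24,38),((1150,556),(1499,482))), ((25,43),((1027,351),(966,273))), ((26,33),((466,150),(760,390))),
  ((26,39),((466,150),(154,42))), ((26,43),((466,150),(966,273))), ((27,39),((661,133),(154,42))),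
  ((27,43),((661,133),(966,273))), ((28,29),((920,753),(596,454))), ((28,32),((920,753),(814,635))),
  ((28,35),((920,753),(719,488))), ((28,36),((920,753),(990,1385))), ((29,31),((596,454),(616,659))),
  ((29,32),((596,454),(814,635))), ((29,41),((596,454),(843,1084))), ((30,33),((970,695),(760,390))),
  ((30,34),((970,695),(977,531))), ((30,35),((970,695),(719,488))), ((31,39),((616,659),(154,42))),
  ((32,35),((814,635),(719,488))), ((33,34),((760,390),(977,531))), ((36,38),((990,1385),(1499,482))),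
  ((39,43),((154,42),(966,273))), ((40,43),((1459,437),(966,273)))]

def pos (a b c : ℕ × ℕ) : ℕ := b.1 * c.2 + b.2 * a.1 + a.2 * c.1
def neg (a b c : ℕ × ℕ) : ℕ := b.1 * a.2 + a.1 * c.2 + b.2 * c.1
def ccw (a b c : ℕ × ℕ) : Bool := Nat.blt (neg a b c) (pos a b c)
def cw (a b c : ℕ × ℕ) : Bool := Nat.blt (pos a b c) (neg a b c)
def nz (a b c : ℕ × ℕ) : Bool := ccw a b c || cw a b c
def sepb (a b c d : ℕ × ℕ) : Bool :=
  (ccw a b c && ccw a b d) || (cw a b c && cw a b d) ||
  (ccw c d a && ccw c d b) || (cw c d a && cw c d b)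

def good' (u v x y : ℕ) (a b c d : ℕ × ℕ) : Bool :=
  if u = x then (if v = y then true else nz a b d)
  else if u = y then nz a b c
  else if v = x then nz b a d
  else if v = y then nz b a c
  else sepb a b c d

def good (q r : Ed) : Bool := good' q.1.1 q.1.2 r.1.1 r.1.2 q.2.1 q.2.2 r.2.1 r.2.2

lemma good1 : E1.all (fun q => E1.all (fun r => good q r)) = true := by decide +kernel
lemma good2 : E2.all (fun q => E2.all (fun r => good q r)) = true := by decide +kernel

lemma avoid1 : (E1 ++ E2).all (fun q => (List.range 44).all (fun w =>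
    (w == q.1.1) || (w == q.1.2) || nz q.2.1 q.2.2 (pts.getD w (0, 0)))) = true := by
  decide +kernel

def mkE (u v : Fin 44) : Ed := ((u, v), (P u, P v))

lemma colr_symm : ∀ u v : Fin 44, colr u v = colr v u := by decide +kernel
lemma colr_irrefl : ∀ u : Fin 44, colr u u = 0 := by decide +kernel
lemma colr_cases : ∀ u v : Fin 44, colr u v = 0 ∨ colr u v = 1 ∨ colr u v = 2 := by decide +kernel
lemma mem1 : ∀ u v : Fin 44, u < v → colr u v = 1 → mkE u v ∈ E1 := by decide +kernel
lemma mem2 : ∀ u v : Fin 44, u < v → colr u v = 2 → mkE u v ∈ E2 := by decide +kernel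
lemma P_inj : ∀ u v : Fin 44, P u = P v → u = v := by decide +kernel

/-- The 11-regular graph. -/
def G : SimpleGraph (Fin 44) where
  Adj u v := colr u v ≠ 0
  symm := ⟨fun u v h => by
    have h' : colr u v ≠ 0 := h
    show colr v u ≠ 0
    rw [← colr_symm u v]; exact h'⟩
  loopless := ⟨fun u h => h (colr_irrefl u)⟩

instance : DecidableRel G.Adj := fun u v => inferInstanceAs (Decidable (colr u v ≠ 0))

lemma degs : ∀ u : Fin 44, (Finset.univ.filter (fun v : Fin 44 => colr u v ≠ 0)).card = 11 := by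
  decide +kernel

lemma G_ncard (u : Fin 44) : (G.neighborSet u).ncard = 11 := by
  have : G.neighborSet u = ↑(Finset.univ.filter (fun v : Fin 44 => colr u v ≠ 0)) := by
    ext v; simp [SimpleGraph.mem_neighborSet, G]
  rw [this, Set.ncard_coe_finset]
  exact degs u

/-- The drawing. -/
def pr (i : Fin 44) : ℝ × ℝ := (((P i).1 : ℝ), ((P i).2 : ℝ))

def castR (a : ℕ × ℕ) : ℝ × ℝ := ((a.1 : ℝ), (a.2 : ℝ))

lemma det_cast (a b c : ℕ × ℕ) : det (castR a) (castR b) (castR c) = (pos a b c : ℝ) - neg a b c := by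
  simp only [det, castR, pos, neg]; push_cast; ring

lemma ccw_pos {a b c : ℕ × ℕ} (h : ccw a b c = true) : 0 < det (castR a) (castR b) (castR c) := by
  rw [det_cast]
  have : neg a b c < pos a b c := by simpa [ccw, Nat.blt] using h
  have : (neg a b c : ℝ) < pos a b c := by exact_mod_cast this
  linarith

lemma cw_neg {a b c : ℕ × ℕ} (h : cw a b c = true) : det (castR a) (castR b) (castR c) < 0 := by
  rw [det_cast]
  have : pos a b c < neg a b c := by simpa [cw, Nat.blt] using h
  have : (pos a b c : ℝ) < neg a b c := by exact_mod_cast this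
  linarith

lemma nz_ne {a b c : ℕ × ℕ} (h : nz a b c = true) : det (castR a) (castR b) (castR c) ≠ 0 := by
  unfold nz at h
  rcases Bool.or_eq_true _ _ ▸ h with h | h
  · exact (ccw_pos h).ne'
  · exact (cw_neg h).ne

lemma sepb_false {a b c d : ℕ × ℕ} (h : sepb a b c d = true) {z : ℝ × ℝ}
    (h1 : z ∈ segment ℝ (castR a) (castR b)) (h2 : z ∈ segment ℝ (castR c) (castR d)) : False := by
  unfold sepb at h
  simp only [Bool.or_eq_true, Bool.and_eq_true] at h
  rcases h with ((h | h) | h) | h
  · exact sep_pos (ccw_pos h.1) (ccw_pos h.2) h1 h2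
  · exact sep_neg (cw_neg h.1) (cw_neg h.2) h1 h2
  · exact sep_pos (ccw_pos h.1) (ccw_pos h.2) h2 h1
  · exact sep_neg (cw_neg h.1) (cw_neg h.2) h2 h1

lemma pr_eq (i : Fin 44) : pr i = castR (P i) := rfl

/-- What a good pair means. -/
lemma good_spec (u v x y : Fin 44) (hne : s(u, v) ≠ s(x, y))
    (h : good (mkE u v) (mkE x y) = true) (z : ℝ × ℝ) (h1 : z ∈ segment ℝ (pr u) (pr v))
    (h2 : z ∈ segment ℝ (pr x) (pr y)) : ∃ w, w ∈ s(u, v) ∧ w ∈ s(x, y) ∧ z = pr w := by
  simp only [pr_eq] at h1 h2 ⊢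
  replace h : good' u v x y (P u) (P v) (P x) (P y) = true := h
  unfold good' at h
  by_cases e1 : (u : ℕ) = x
  · have e1' : u = x := Fin.ext e1
    subst e1'
    rw [if_pos rfl] at h
    by_cases e2 : (v : ℕ) = y
    · exact absurd (by rw [Fin.ext e2]) hne
    · rw [if_neg e2] at h
      exact ⟨u, by simp, by simp, share (nz_ne h) h1 h2⟩
  · rw [if_neg e1] at h
    by_cases e2 : (u : ℕ) = y
    · have e2' : u = y := Fin.ext e2
      subst e2'
      rw [if_pos rfl] at h
      rw [segment_symm] at h2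
      exact ⟨u, by simp, by simp, share (nz_ne h) h1 h2⟩
    · rw [if_neg e2] at h
      by_cases e3 : (v : ℕ) = x
      · have e3' : v = x := Fin.ext e3
        subst e3'
        rw [if_pos rfl] at h
        rw [segment_symm] at h1
        exact ⟨v, by simp, by simp, share (nz_ne h) h1 h2⟩
      · rw [if_neg e3] at h
        by_cases e4 : (v : ℕ) = y
        · have e4' : v = y := Fin.ext e4
          subst e4'
          rw [if_pos rfl] at h
          rw [segment_symm] at h1 h2
          exact ⟨v, by simp, by simp, share (nz_ne h) h1 h2⟩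
        · rw [if_neg e4] at h
          exact (sepb_false h h1 h2).elim

/-- The two colour classes. -/
def cl : Sym2 (Fin 44) → Fin 2 :=
  Sym2.lift ⟨fun u v => if colr u v = 1 then 0 else 1, fun u v => by simp only [colr_symm u v]⟩

lemma cl_mk (u v : Fin 44) : cl s(u, v) = if colr u v = 1 then 0 else 1 := rfl

lemma cross_lt (u v x y : Fin 44) (huv : u < v) (hxy : x < y) (h1 : G.Adj u v) (h2 : G.Adj x y)
    (hc : cl s(u, v) = cl s(x, y)) : good (mkE u v) (mkE x y) = true := by
  rw [cl_mk, cl_mk] at hc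
  have a1 : colr u v ≠ 0 := h1
  have a2 : colr x y ≠ 0 := h2
  rcases colr_cases u v with c1 | c1 | c1
  · exact absurd c1 a1
  · rcases colr_cases x y with c2 | c2 | c2
    · exact absurd c2 a2
    · have := List.all_eq_true.mp good1 _ (mem1 u v huv c1)
      exact List.all_eq_true.mp this _ (mem1 x y hxy c2)
    · simp [c1, c2] at hc
  · rcases colr_cases x y with c2 | c2 | c2
    · exact absurd c2 a2
    · simp [c1, c2] at hc
    · have := List.all_eq_true.mp good2 _ (mem2 u v huv c1)
      exact List.all_eq_true.mp this _ (mem2 x y hxy c2)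

lemma cross_aux (u v x y : Fin 44) (huv : u < v) (hxy : x < y) (h1 : G.Adj u v) (h2 : G.Adj x y)
    (hne : s(u, v) ≠ s(x, y)) (hc : cl s(u, v) = cl s(x, y)) (z : ℝ × ℝ)
    (hz1 : z ∈ segment ℝ (pr u) (pr v)) (hz2 : z ∈ segment ℝ (pr x) (pr y)) :
    ∃ w, w ∈ s(u, v) ∧ w ∈ s(x, y) ∧ z = pr w :=
  good_spec u v x y hne (cross_lt u v x y huv hxy h1 h2 hc) z hz1 hz2

lemma avoid_lt (u v w : Fin 44) (huv : u < v) (h : G.Adj u v) (h1 : w ≠ u) (h2 : w ≠ v) :
    pr w ∉ segment ℝ (pr u) (pr v) := by
  intro hw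
  have a1 : colr u v ≠ 0 := h
  have hmem : mkE u v ∈ E1 ++ E2 := by
    rw [List.mem_append]
    rcases colr_cases u v with c1 | c1 | c1
    · exact absurd c1 a1
    · exact Or.inl (mem1 u v huv c1)
    · exact Or.inr (mem2 u v huv c1)
  have := List.all_eq_true.mp avoid1 _ hmem
  have := List.all_eq_true.mp this (w : ℕ) (List.mem_range.mpr w.2)
  simp only [mkE, Bool.or_eq_true, beq_iff_eq] at this
  rcases this with (h3 | h3) | h3
  · exact h1 (Fin.ext h3)
  · exact h2 (Fin.ext h3)
  · have h4 : det (castR (P u)) (castR (P v)) (castR (P w)) ≠ 0 := nz_ne h3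
    exact h4 (det_self_seg hw)

lemma drawing : IsDrawing G pr cl where
  inj u v h := by
    apply P_inj
    have h1 : ((P u).1 : ℝ) = (P v).1 := congrArg Prod.fst h
    have h2 : ((P u).2 : ℝ) = (P v).2 := congrArg Prod.snd h
    exact Prod.ext (by exact_mod_cast h1) (by exact_mod_cast h2)
  avoid u v w h h1 h2 := by
    rcases lt_trichotomy u v with huv | huv | huv
    · exact avoid_lt u v w huv h h1 h2
    · exact absurd huv h.ne
    · rw [segment_symm]; exact avoid_lt v u w huv h.symm h2 h1
  cross u v x y h1 h2 hne hc z hz1 hz2 := by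
    rcases lt_trichotomy u v with huv | huv | huv
    · rcases lt_trichotomy x y with hxy | hxy | hxy
      · exact cross_aux u v x y huv hxy h1 h2 hne hc z hz1 hz2
      · exact absurd hxy h2.ne
      · rw [segment_symm] at hz2
        rw [Sym2.eq_swap (a := x)] at hne hc ⊢
        exact cross_aux u v y x huv hxy h1 h2.symm hne hc z hz1 hz2
    · exact absurd huv h1.ne
    · rw [segment_symm] at hz1
      rw [Sym2.eq_swap (a := u)] at hne hc ⊢
      rcases lt_trichotomy x y with hxy | hxy | hxy
      · exact cross_aux v u x y huv hxy h1.symm h2 hne hc z hz1 hz2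
      · exact absurd hxy h2.ne
      · rw [segment_symm] at hz2
        rw [Sym2.eq_swap (a := x)] at hne hc ⊢
        exact cross_aux v u y x huv hxy h1.symm h2.symm hne hc z hz1 hz2

/-- Five mutually adjacent vertices. -/
def kf : Fin 5 → Fin 44 := ![0, 1, 2, 22, 36]

lemma G_thick : HasGeomThickness G 2 := by
  refine ⟨⟨pr, cl, drawing⟩, ?_⟩
  intro s hs
  interval_cases s
  · rintro ⟨p, c, _⟩
    exact (c s(0, 1)).elim0
  · apply no_k5 G kf
    · decide
    · intro i j hij
      have : ∀ i j : Fin 5, i ≠ j → colr (kf i) (kf j) ≠ 0 := by decide +kernel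
      exact this i j hij

/-- There is an 11-regular graph of geometric thickness exactly 2; in particular it is not true that
for every `t ≥ 1` the largest `k` for which a `k`-regular graph of geometric thickness `t` exists
is `5 t`. -/
theorem result : 11 ∈ regularDegrees 2 ∧ ¬ ∀ t : ℕ, 1 ≤ t → IsGreatest (regularDegrees t) (5 * t) := by
  have h : 11 ∈ regularDegrees 2 := ⟨44, G, G_ncard, G_thick⟩
  refine ⟨h, fun H => ?_⟩
  have := (H 2 (by norm_num)).2 h
  norm_num at this

end Pool.Agent.Results.MP_10c741_co.ElevenRegular
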